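import Pool.Agent.Work.MP_46fa68_19.Mk7
import Pool.Agent.Work.MP_46fa68_19.m9_17_8.K

/-! # MP_46fa68_co, full marked kernel m9_17_8: restriction and target -/

set_option autoImplicit false

set_option maxRecDepth 200000

namespace Pool.JM.MK.m9_17_8

open Finset Pool.EG

theorem hcs : ∀ k ≤ 16 + 1, ∀ C ∈ Lv 18 k, cd C ∈ cs k := by
  refine cs_all (W := 35) (by norm_num) cs hcs0 ?_
  intro k hk
  interval_cases k
  · exact hcl0
  · exact hcl1
  · exact hcl2
  · exact hcl3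
  · exact hcl4
  · exact hcl5
  · exact hcl6
  · exact hcl7
  · exact hcl8
  · exact hcl9
  · exact hcl10
  · exact hcl11
  · exact hcl12
  · exact hcl13
  · exact hcl14
  · exact hcl15
  · exact hcl16

theorem hG : ∀ k < 7 + 2, allL (cs (k + 1)) (chG 35 tG) = true := by
  intro k hk
  interval_cases k
  · exact hG0
  · exact hG1
  · exact hG2
  · exact hG3
  · exact hG4
  · exact hG5
  · exact hG6
  · exact hG7
  · exact hG8

theorem hsB : ∀ k, 7 + 1 ≤ k → k < 16 →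
    allL (cs k) (chB 12252240 35 (k + 1) (tB (k + 1)) (tD (k + 1)) (tB k)) = true := by
  intro k hk1 hk2
  interval_cases k
  · exact hB8
  · exact hB9
  · exact hB10
  · exact hB11
  · exact hB12
  · exact hB13
  · exact hB14
  · exact hB15

theorem hsD : ∀ k, 7 + 1 ≤ k → k < 16 →
    allL (cs (k + 1)) (chD 12252240 35 (k + 1) (tB (k + 1)) (tD (k + 1)) (tD k)) = true := by
  intro k hk1 hk2
  interval_cases k
  · exact hD8
  · exact hD9
  · exact hD10
  · exact hD11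
  · exact hD12
  · exact hD13
  · exact hD14
  · exact hD15

theorem hL : ∀ r, 1 ≤ r → r ≤ 18 → r ∣ 12252240 := by
  intro r h1 h2
  interval_cases r <;> decide

theorem hr0 : 33685503 = cd (Rw 18 (7 + 1)) := by
  decide +kernel

theorem hE : (∑ k ∈ Ico ((7 : ℕ) + 1) 16, (((176 : ℕ) : ℝ) * ((35 : ℕ) : ℝ) ^ 2 *
    (((k : ℝ) + 1) ^ 2 * k.factorial) + ((176 : ℕ) : ℝ) ^ 2 * ((k : ℝ) + 1)) / (2 ^ 112 : ℝ)) +
    (((176 : ℕ) : ℝ) * ((35 : ℕ) : ℝ) ^ 2 + ((176 : ℕ) : ℝ) ^ 2) * (((2 ^ 32 : ℕ) : ℝ) / (2 ^ 112 : ℝ)) ≤ 1 / 10 ^ 13 := by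
  simp only [Finset.sum_Ico_eq_sum_range, Finset.sum_range_succ, Finset.sum_range_zero,
    Nat.factorial]
  norm_num

end Pool.JM.MK.m9_17_8
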